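import Pool.Agent.T2H17.MP.Basic

/-!
The integral of the majorant.
-/

set_option autoImplicit false

open MeasureTheory Filter Topology Finset

namespace Pool.Agent.T2H17.MP

open Pool.Agent.T2H58.ST (HH Wt Wl S_LOGW S_HAR pLOGW pHAR)
open Pool.Agent.T2H98.RT (b pDIV)

lemma card_V (k R : ℕ) : (V k R).card = R ^ k := by
  unfold V
  rw [Fintype.card_piFinset]
  simp

lemma prod_mem {k R : ℕ} {v : Fin k → ℕ} (hv : v ∈ V k R) : ∏ i, v i ∈ Finset.Icc 1 (R ^ k) := by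
  rw [Finset.mem_Icc]
  constructor
  · refine Nat.one_le_iff_ne_zero.mpr (Finset.prod_ne_zero_iff.mpr fun i _ => ?_)
    have := (mem_V.mp hv i).1
    omega
  · calc ∏ i, v i ≤ ∏ _i : Fin k, R := Finset.prod_le_prod' fun i _ => (mem_V.mp hv i).2
      _ = R ^ k := by simp

/-- row sums of the kernel -/
lemma row (T₀ T : ℝ) (hT : 0 ≤ T) (M m : ℕ) (hm : m ∈ Finset.Icc 1 M) :
    ∑ m' ∈ Finset.Icc 1 M, K T₀ T (Real.log m - Real.log m') ≤ T + 6 * M * HH M := by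
  have hM : (0 : ℝ) ≤ M := Nat.cast_nonneg M
  have hrow := (pLOGW M).1.2.2 m hm
  rw [← Finset.sum_filter_add_sum_filter_not (Finset.Icc 1 M) (fun s => s ≠ m)]
  have hA : ∑ m' ∈ (Finset.Icc 1 M).filter (fun s => s ≠ m), K T₀ T (Real.log m - Real.log m') ≤ 6 * M * HH M := by
    calc ∑ m' ∈ (Finset.Icc 1 M).filter (fun s => s ≠ m), K T₀ T (Real.log m - Real.log m')
        ≤ ∑ m' ∈ (Finset.Icc 1 M).filter (fun s => s ≠ m), 2 * M * (Wl m m' / (m' : ℝ)) := by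
          refine Finset.sum_le_sum fun m' hm' => ?_
          rw [Finset.mem_filter, Finset.mem_Icc] at hm'
          rw [Finset.mem_Icc] at hm
          have h1 : (0 : ℝ) < m' := by exact_mod_cast (by omega : 0 < m')
          have h2 : (0 : ℝ) < m := by exact_mod_cast (by omega : 0 < m)
          have hne : Real.log m - Real.log m' ≠ 0 := by
            intro h
            have : Real.log m = Real.log m' := by linarith
            have := Real.log_injOn_pos (Set.mem_Ioi.mpr h2) (Set.mem_Ioi.mpr h1) this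
            exact hm'.2 (by exact_mod_cast this.symm)
          have h3 : (1 : ℝ) ≤ M / m' := by
            rw [le_div_iff₀ h1, one_mul]
            exact_mod_cast hm'.1.2
          have h4 : 0 ≤ 1 / |Real.log m - Real.log m'| := by positivity
          calc K T₀ T (Real.log m - Real.log m') ≤ 2 * (1 / |Real.log m - Real.log m'|) := K_le' hne
            _ ≤ 2 * (1 / |Real.log m - Real.log m'|) * (M / m') := le_mul_of_one_le_right (by positivity) h3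
            _ = 2 * M * (Wl m m' / (m' : ℝ)) := by unfold Wl; ring
      _ = 2 * M * ∑ m' ∈ (Finset.Icc 1 M).filter (fun s => s ≠ m), Wl m m' / (m' : ℝ) := by
          rw [Finset.mul_sum]
      _ ≤ 2 * M * (3 * HH M) := by gcongr
      _ = 6 * M * HH M := by ring
  have hB : ∑ m' ∈ (Finset.Icc 1 M).filter (fun s => ¬ s ≠ m), K T₀ T (Real.log m - Real.log m') ≤ T := by
    have e : (Finset.Icc 1 M).filter (fun s => ¬ s ≠ m) = {m} := by
      ext s
      simp only [Finset.mem_filter, Finset.mem_singleton, not_not]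
      constructor
      · exact fun h => h.2
      · rintro rfl
        exact ⟨hm, rfl⟩
    rw [e, Finset.sum_singleton]
    exact K_le hT
  linarith

lemma cont_Aj (a : ℕ → ℂ) (k d R : ℕ) (j : Fin (d + 1) → ℕ) : Continuous (Aj a k d R j) := by
  unfold Aj term
  fun_prop

lemma cont_Y (a : ℕ → ℂ) (k d R : ℕ) : Continuous (Y a k d R) := by
  unfold Y
  have := cont_Aj a k d R
  fun_prop

lemma Y_nonneg (a : ℕ → ℂ) (k d R : ℕ) (t : ℝ) : 0 ≤ Y a k d R t := by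
  unfold Y
  positivity

lemma card_J (k d R : ℕ) (hR : 1 ≤ R) : ((J k d R).card : ℝ) ≤ ((k : ℝ) + 1) ^ (d + 1) * (R : ℝ) ^ (d * (d + 1)) := by
  unfold J
  rw [Fintype.card_piFinset]
  simp only [Finset.card_range, Finset.prod_const, Finset.card_univ, Fintype.card_fin]
  push_cast
  rw [pow_mul, ← mul_pow]
  have hR1 : (1 : ℝ) ≤ (R : ℝ) ^ d := one_le_pow₀ (by exact_mod_cast hR)
  refine pow_le_pow_left₀ (by positivity) ?_ _
  linarith

lemma int_Y (a : ℕ → ℂ) (ha : ∀ n, ‖a n‖ ≤ 1) (k d R : ℕ) (B : ℝ) (hB : ∀ m ∈ Finset.Icc 1 (R ^ k), (b k R m : ℝ) ≤ B)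
    (hB0 : 0 ≤ B) (T₀ T : ℝ) (hT : 0 ≤ T) :
    ∫ t in T₀..(T₀ + T), Y a k d R t ≤
      ((J k d R).card : ℝ) * (((R ^ k : ℕ) : ℝ) * (B * (T + 6 * ((R ^ k : ℕ) : ℝ) * HH (R ^ k)))) := by
  classical
  unfold Y
  rw [intervalIntegral.integral_const_mul]
  rw [intervalIntegral.integral_finsetSum (fun j _ => by
    apply Continuous.intervalIntegrable
    exact (cont_Aj a k d R j).norm.pow 2)]
  refine mul_le_mul_of_nonneg_left ?_ (by positivity)
  have h1 : ∀ j ∈ J k d R, (∫ t in T₀..(T₀ + T), ‖Aj a k d R j t‖ ^ 2) ≤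
      ∑ v ∈ (V k R).filter (fun v => sv d v = j), ∑ w ∈ V k R,
        K T₀ T (Real.log ((∏ i, v i : ℕ) : ℝ) - Real.log ((∏ i, w i : ℕ) : ℝ)) := by
    intro j _
    have h2 := mean ((V k R).filter (fun v => sv d v = j)) (fun v => ∏ i, a (v i))
      (fun v => Real.log ((∏ i, v i : ℕ) : ℝ)) (fun v _ => by
        rw [norm_prod]
        exact Finset.prod_le_one (fun _ _ => norm_nonneg _) (fun i _ => ha _)) T₀ T hT
    refine h2.trans (Finset.sum_le_sum fun v _ => ?_)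
    exact Finset.sum_le_sum_of_subset_of_nonneg (Finset.filter_subset _ _)
      (fun w _ _ => norm_nonneg _)
  refine (Finset.sum_le_sum h1).trans ?_
  rw [Finset.sum_fiberwise_of_maps_to (fun v hv => sv_mem (d := d) hv)]
  have h3 : ∀ v ∈ V k R, ∑ w ∈ V k R,
      K T₀ T (Real.log ((∏ i, v i : ℕ) : ℝ) - Real.log ((∏ i, w i : ℕ) : ℝ)) ≤
        B * (T + 6 * ((R ^ k : ℕ) : ℝ) * HH (R ^ k)) := by
    intro v hv
    rw [← Finset.sum_fiberwise_of_maps_to (fun w hw => prod_mem hw)]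
    calc ∑ m' ∈ Finset.Icc 1 (R ^ k), ∑ w ∈ (V k R).filter (fun w => ∏ i, w i = m'),
          K T₀ T (Real.log ((∏ i, v i : ℕ) : ℝ) - Real.log ((∏ i, w i : ℕ) : ℝ))
        = ∑ m' ∈ Finset.Icc 1 (R ^ k), (b k R m' : ℝ) *
            K T₀ T (Real.log ((∏ i, v i : ℕ) : ℝ) - Real.log (m' : ℝ)) := by
          refine Finset.sum_congr rfl fun m' _ => ?_
          rw [Finset.sum_congr rfl (g := fun _ => K T₀ T (Real.log ((∏ i, v i : ℕ) : ℝ) - Real.log (m' : ℝ)))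
            (fun w hw => by rw [(Finset.mem_filter.mp hw).2]), Finset.sum_const, nsmul_eq_mul]
          rfl
      _ ≤ ∑ m' ∈ Finset.Icc 1 (R ^ k), B *
            K T₀ T (Real.log ((∏ i, v i : ℕ) : ℝ) - Real.log (m' : ℝ)) := by
          refine Finset.sum_le_sum fun m' hm' => ?_
          exact mul_le_mul_of_nonneg_right (hB m' hm') (norm_nonneg _)
      _ = B * ∑ m' ∈ Finset.Icc 1 (R ^ k), K T₀ T (Real.log ((∏ i, v i : ℕ) : ℝ) - Real.log (m' : ℝ)) := by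
          rw [Finset.mul_sum]
      _ ≤ B * (T + 6 * ((R ^ k : ℕ) : ℝ) * HH (R ^ k)) :=
          mul_le_mul_of_nonneg_left (row T₀ T hT (R ^ k) _ (prod_mem hv)) hB0
  calc ∑ v ∈ V k R, ∑ w ∈ V k R,
      K T₀ T (Real.log ((∏ i, v i : ℕ) : ℝ) - Real.log ((∏ i, w i : ℕ) : ℝ))
      ≤ ∑ v ∈ V k R, B * (T + 6 * ((R ^ k : ℕ) : ℝ) * HH (R ^ k)) := Finset.sum_le_sum h3
    _ = ((R ^ k : ℕ) : ℝ) * (B * (T + 6 * ((R ^ k : ℕ) : ℝ) * HH (R ^ k))) := by
        rw [Finset.sum_const, card_V, nsmul_eq_mul]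

/-- `∫ Y ≤ C T R^(k+1+d(d+1))` when `R^(k+1) ≤ T` -/
lemma int_Y_le (k d : ℕ) (hk : 1 ≤ k) : ∃ C : ℝ, 0 < C ∧ ∀ (a : ℕ → ℂ), (∀ n, ‖a n‖ ≤ 1) → ∀ (R : ℕ) (T₀ T : ℝ),
    1 ≤ R → (R : ℝ) ^ (k + 1) ≤ T → ∫ t in T₀..(T₀ + T), Y a k d R t ≤ C * T * (R : ℝ) ^ (k + 1 + d * (d + 1)) := by
  have hk0 : (0 : ℝ) < k := by exact_mod_cast hk
  obtain ⟨C₁, hC₁, hdiv, _⟩ := pDIV k (1 / k) (by positivity)
  obtain ⟨C₂, hC₂, hhar⟩ := pHAR k 1 one_pos
  refine ⟨((k : ℝ) + 1) ^ (d + 1) * C₁ * (1 + 6 * C₂), by positivity, ?_⟩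
  intro a ha R T₀ T hR hRT
  have hR1 : (1 : ℝ) ≤ R := by exact_mod_cast hR
  have hR0 : (0 : ℝ) < R := by linarith
  have hT : 0 ≤ T := le_trans (by positivity) hRT
  have hB : ∀ m ∈ Finset.Icc 1 (R ^ k), (b k R m : ℝ) ≤ C₁ * R := by
    intro m hm
    rw [Finset.mem_Icc] at hm
    refine (hdiv R m hm.1).trans ?_
    have h1 : (m : ℝ) ^ (1 / (k : ℝ)) ≤ ((R : ℝ) ^ k) ^ (1 / (k : ℝ)) := by
      refine Real.rpow_le_rpow (Nat.cast_nonneg m) ?_ (by positivity)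
      exact_mod_cast hm.2
    have h2 : ((R : ℝ) ^ k) ^ (1 / (k : ℝ)) = R := by
      rw [← Real.rpow_natCast, ← Real.rpow_mul hR0.le, mul_one_div_cancel hk0.ne', Real.rpow_one]
    rw [h2] at h1
    gcongr
  have h3 := int_Y a ha k d R (C₁ * R) hB (by positivity) T₀ T hT
  refine h3.trans ?_
  have h4 : HH (R ^ k) ≤ C₂ * R := by
    have := hhar R hR
    rwa [Real.rpow_one] at this
  have h5 : T + 6 * ((R ^ k : ℕ) : ℝ) * HH (R ^ k) ≤ (1 + 6 * C₂) * T := by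
    push_cast
    have h6 : 6 * (R : ℝ) ^ k * HH (R ^ k) ≤ 6 * C₂ * T := by
      calc 6 * (R : ℝ) ^ k * HH (R ^ k) ≤ 6 * (R : ℝ) ^ k * (C₂ * R) := by gcongr
        _ = 6 * C₂ * (R : ℝ) ^ (k + 1) := by ring
        _ ≤ 6 * C₂ * T := by gcongr
    linarith
  have h7 := card_J k d R hR
  have h8 : 0 ≤ HH (R ^ k) := by
    unfold HH
    exact Finset.sum_nonneg fun g _ => by positivity
  calc ((J k d R).card : ℝ) * (((R ^ k : ℕ) : ℝ) * (C₁ * R * (T + 6 * ((R ^ k : ℕ) : ℝ) * HH (R ^ k))))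
      ≤ (((k : ℝ) + 1) ^ (d + 1) * (R : ℝ) ^ (d * (d + 1))) *
          (((R ^ k : ℕ) : ℝ) * (C₁ * R * ((1 + 6 * C₂) * T))) := by gcongr
    _ = ((k : ℝ) + 1) ^ (d + 1) * C₁ * (1 + 6 * C₂) * T * (R : ℝ) ^ (k + 1 + d * (d + 1)) := by
        push_cast
        ring

end Pool.Agent.T2H17.MP
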