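import Pool.Agent.T2H17.MP.Bound

/-!
The measure of the set of exceptional `t`.
-/

set_option autoImplicit false

open MeasureTheory Filter Topology Finset

namespace Pool.Agent.T2H17.MP

/-- Markov for one `R` -/
lemma markov (a : ℕ → ℂ) (k d R : ℕ) (T₀ T l I : ℝ) (hT : 0 ≤ T) (hl : 0 < l)
    (hI : ∫ t in T₀..(T₀ + T), Y a k d R t ≤ I) :
    volume {t : ℝ | t ∈ Set.Icc T₀ (T₀ + T) ∧ l ≤ Y a k d R t} ≤ ENNReal.ofReal (I / l) := by
  have hc := cont_Y a k d R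
  have hii : IntegrableOn (Y a k d R) (Set.Ioc T₀ (T₀ + T)) volume :=
    (hc.continuousOn.integrableOn_Icc (a := T₀) (b := T₀ + T)).mono_set Set.Ioc_subset_Icc_self
  have hiI : IntegrableOn (Y a k d R) (Set.Icc T₀ (T₀ + T)) volume := hc.continuousOn.integrableOn_Icc
  have h1 : ENNReal.ofReal l * (volume.restrict (Set.Icc T₀ (T₀ + T))) {t | ENNReal.ofReal l ≤ ENNReal.ofReal (Y a k d R t)} ≤
      ∫⁻ t in Set.Icc T₀ (T₀ + T), ENNReal.ofReal (Y a k d R t) :=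
    mul_meas_ge_le_lintegral₀ (hc.measurable.ennreal_ofReal.aemeasurable) _
  have h2 : ∫⁻ t in Set.Icc T₀ (T₀ + T), ENNReal.ofReal (Y a k d R t) =
      ENNReal.ofReal (∫ t in T₀..(T₀ + T), Y a k d R t) := by
    rw [intervalIntegral.integral_of_le (by linarith), ← integral_Icc_eq_integral_Ioc,
      ofReal_integral_eq_lintegral_ofReal hiI (Eventually.of_forall fun t => Y_nonneg a k d R t)]
  have h3 : (volume.restrict (Set.Icc T₀ (T₀ + T))) {t | ENNReal.ofReal l ≤ ENNReal.ofReal (Y a k d R t)} =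
      volume {t : ℝ | t ∈ Set.Icc T₀ (T₀ + T) ∧ l ≤ Y a k d R t} := by
    rw [Measure.restrict_apply (measurableSet_le measurable_const hc.measurable.ennreal_ofReal)]
    congr 1
    ext t
    simp only [Set.mem_inter_iff, Set.mem_ofPred_eq]
    rw [ENNReal.ofReal_le_ofReal_iff (Y_nonneg a k d R t), and_comm]
  rw [h2, h3] at h1
  rw [ENNReal.ofReal_div_of_pos hl]
  rw [ENNReal.le_div_iff_mul_le (Or.inl (by simpa using hl)) (Or.inl ENNReal.ofReal_ne_top), mul_comm]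
  exact h1.trans (ENNReal.ofReal_le_ofReal hI)

/-- **Main theorem.** -/
theorem main (d B : ℕ) (ε A : ℝ) (hε : 0 < ε) (hA : 0 < A) : ∃ c : ℝ, 0 < c ∧ ∃ M₀ : ℕ,
    ∀ a : ℕ → ℕ → ℕ → ℂ, (∀ R i n, ‖a R i n‖ ≤ 1) →
    ∀ (T₀ T : ℝ) (M : ℕ), 1 ≤ T → M₀ ≤ M →
    volume {t : ℝ | t ∈ Set.Icc T₀ (T₀ + T) ∧ ∃ R : ℕ, M ≤ R ∧ (R : ℝ) ≤ T ^ c ∧ ∃ i : ℕ, i < R ^ B ∧
      ∃ P : Polynomial ℝ, P.natDegree ≤ d ∧ (R : ℝ) ^ (1 / 2 + ε) < ‖S (a R i) R P t‖} ≤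
        ENNReal.ofReal (T * (M : ℝ) ^ (-A)) := by
  obtain ⟨k₀, hk₀⟩ := exists_nat_ge ((A + B + 4 + d * (d + 1)) / (2 * ε))
  set k : ℕ := k₀ + 1 with hk
  have hk1 : 1 ≤ k := by omega
  have hkε : A + B + 4 + d * (d + 1) ≤ 2 * k * ε := by
    have h1 : (A + B + 4 + d * (d + 1)) / (2 * ε) ≤ (k : ℝ) := by
      refine hk₀.trans ?_
      exact_mod_cast (by omega : k₀ ≤ k)
    rw [div_le_iff₀ (by positivity)] at h1
    linarith
  obtain ⟨C, hC, hCY⟩ := int_Y_le k d hk1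
  have hsum : Summable (fun n : ℕ => 1 / (n : ℝ) ^ 2) := Real.summable_one_div_nat_pow.mpr (by norm_num)
  set D : ℝ := ∑' n : ℕ, 1 / (n : ℝ) ^ 2 with hD
  have hD0 : 0 ≤ D := tsum_nonneg fun n => by positivity
  obtain ⟨M₁, hM₁⟩ := exists_nat_ge (C * D)
  refine ⟨1 / ((k : ℝ) + 1), by positivity, M₁ + 1, ?_⟩
  intro a ha T₀ T M hT hM
  have hT0 : 0 < T := by linarith
  have hM1 : 1 ≤ M := by omega
  have hMR : (1 : ℝ) ≤ M := by exact_mod_cast hM1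
  have hCD : C * D ≤ M := by
    refine hM₁.trans ?_
    exact_mod_cast (by omega : M₁ ≤ M)
  set F : Finset ℕ := Finset.Icc M ⌊T ^ (1 / ((k : ℝ) + 1))⌋₊ with hF
  have hsub : {t : ℝ | t ∈ Set.Icc T₀ (T₀ + T) ∧ ∃ R : ℕ, M ≤ R ∧ (R : ℝ) ≤ T ^ (1 / ((k : ℝ) + 1)) ∧
      ∃ i : ℕ, i < R ^ B ∧ ∃ P : Polynomial ℝ, P.natDegree ≤ d ∧
        (R : ℝ) ^ (1 / 2 + ε) < ‖S (a R i) R P t‖} ⊆
      ⋃ R ∈ F, ⋃ i ∈ Finset.range (R ^ B),
        {t : ℝ | t ∈ Set.Icc T₀ (T₀ + T) ∧ (R : ℝ) ^ (k + 2 * k * ε) ≤ Y (a R i) k d R t} := by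
    rintro t ⟨ht, R, hMR, hRT, i, hi, P, hP, hx⟩
    have hR0 : (0 : ℝ) ≤ R := Nat.cast_nonneg R
    refine Set.mem_biUnion (x := R) ?_ (Set.mem_biUnion (x := i) ?_ ⟨ht, ?_⟩)
    · rw [hF]
      exact Finset.mem_Icc.mpr ⟨hMR, Nat.le_floor hRT⟩
    · exact Finset.mem_range.mpr hi
    · refine le_trans ?_ (norm_pow_le (a R i) k d R P hP t)
      have h1 : ((R : ℝ) ^ (1 / 2 + ε)) ^ (2 * k) = (R : ℝ) ^ (k + 2 * k * ε) := by
        rw [← Real.rpow_natCast, ← Real.rpow_mul hR0]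
        congr 1
        push_cast
        ring
      rw [← h1]
      exact pow_le_pow_left₀ (by positivity) hx.le _
  refine (measure_mono hsub).trans ((measure_biUnion_finset_le _ _).trans ?_)
  have hone : ∀ R ∈ F, volume (⋃ i ∈ Finset.range (R ^ B),
      {t : ℝ | t ∈ Set.Icc T₀ (T₀ + T) ∧ (R : ℝ) ^ (k + 2 * k * ε) ≤ Y (a R i) k d R t}) ≤
      ENNReal.ofReal (C * T * (M : ℝ) ^ (-A - 1) * (1 / (R : ℝ) ^ 2)) := by
    intro R hR
    rw [hF, Finset.mem_Icc] at hR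
    have hR1 : 1 ≤ R := by omega
    have hRr : (1 : ℝ) ≤ R := by exact_mod_cast hR1
    have hR0 : (0 : ℝ) < R := by linarith
    have hRT : (R : ℝ) ≤ T ^ (1 / ((k : ℝ) + 1)) :=
      le_trans (by exact_mod_cast hR.2) (Nat.floor_le (by positivity))
    have hRT' : (R : ℝ) ^ (k + 1) ≤ T := by
      calc (R : ℝ) ^ (k + 1) ≤ (T ^ (1 / ((k : ℝ) + 1))) ^ (k + 1) := pow_le_pow_left₀ hR0.le hRT _
        _ = T := by
          rw [← Real.rpow_natCast, ← Real.rpow_mul hT0.le]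
          push_cast
          rw [one_div_mul_cancel (by positivity), Real.rpow_one]
    refine (measure_biUnion_finset_le _ _).trans ?_
    refine (Finset.sum_le_sum fun i _ => markov (a R i) k d R T₀ T _ _ hT0.le (by positivity)
      (hCY (a R i) (ha R i) R T₀ T hR1 hRT')).trans ?_
    rw [Finset.sum_const, Finset.card_range, nsmul_eq_mul, ← ENNReal.ofReal_natCast,
      ← ENNReal.ofReal_mul (by positivity)]
    apply ENNReal.ofReal_le_ofReal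
    rw [mul_div_assoc', div_le_iff₀ (by positivity)]
    have hMR2 : (M : ℝ) ≤ R := by exact_mod_cast hR.1
    have h1 : (R : ℝ) ^ (-A - 1) ≤ (M : ℝ) ^ (-A - 1) :=
      Real.rpow_le_rpow_of_nonpos (by linarith) hMR2 (by linarith)
    have h2 : (R : ℝ) ^ B * (R : ℝ) ^ (k + 1 + d * (d + 1)) ≤
        (R : ℝ) ^ (-A - 1) * (1 / (R : ℝ) ^ 2) * (R : ℝ) ^ (k + 2 * k * ε) := by
      have e1 : (1 / (R : ℝ) ^ 2) = (R : ℝ) ^ (-2 : ℝ) := by
        rw [Real.rpow_neg hR0.le, one_div]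
        norm_num
      have e2 : (R : ℝ) ^ B * (R : ℝ) ^ (k + 1 + d * (d + 1)) =
          (R : ℝ) ^ ((B : ℝ) + ((k : ℝ) + 1 + d * (d + 1))) := by
        rw [← pow_add, ← Real.rpow_natCast]
        push_cast
        rfl
      rw [e1, e2, ← Real.rpow_add hR0, ← Real.rpow_add hR0]
      apply Real.rpow_le_rpow_of_exponent_le hRr
      linarith
    push_cast
    calc (R : ℝ) ^ B * (C * T * (R : ℝ) ^ (k + 1 + d * (d + 1)))
        = C * T * ((R : ℝ) ^ B * (R : ℝ) ^ (k + 1 + d * (d + 1))) := by ring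
      _ ≤ C * T * ((R : ℝ) ^ (-A - 1) * (1 / (R : ℝ) ^ 2) * (R : ℝ) ^ (k + 2 * k * ε)) := by
          gcongr
      _ ≤ C * T * ((M : ℝ) ^ (-A - 1) * (1 / (R : ℝ) ^ 2) * (R : ℝ) ^ (k + 2 * k * ε)) := by gcongr
      _ = C * T * (M : ℝ) ^ (-A - 1) * (1 / (R : ℝ) ^ 2) * (R : ℝ) ^ (k + 2 * k * ε) := by ring
  refine (Finset.sum_le_sum hone).trans ?_
  rw [← ENNReal.ofReal_sum_of_nonneg (fun R _ => by positivity), ← Finset.mul_sum]
  apply ENNReal.ofReal_le_ofReal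
  have h5 : ∑ R ∈ F, 1 / (R : ℝ) ^ 2 ≤ D := hsum.sum_le_tsum F (fun n _ => by positivity)
  have h6 : (M : ℝ) ^ (-A - 1) * M = (M : ℝ) ^ (-A) := by
    have hM0 : (0 : ℝ) < M := by linarith
    nth_rewrite 2 [← Real.rpow_one (M : ℝ)]
    rw [← Real.rpow_add hM0]
    congr 1
    ring
  calc C * T * (M : ℝ) ^ (-A - 1) * ∑ R ∈ F, 1 / (R : ℝ) ^ 2 ≤ C * T * (M : ℝ) ^ (-A - 1) * D := by gcongr
    _ = T * (M : ℝ) ^ (-A - 1) * (C * D) := by ring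
    _ ≤ T * (M : ℝ) ^ (-A - 1) * M := by gcongr
    _ = T * (M : ℝ) ^ (-A) := by rw [mul_assoc, h6]

end Pool.Agent.T2H17.MP
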